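import Pool.Agent.PFJ.StmtsG

/-!
# PFJ squad, row CHB: other boundary rays of the factors give boxes with the same factors
-/

set_option autoImplicit false

open Matrix Filter Topology

namespace Pool.Agent.PFJ.H33

open Pool.Agent.PFS

variable {n : ℕ}

/-- the component in the factor `a` of `z + ∑ c l • v l`, `z` in the factor `a` -/
theorem compv {K : ℕ} {C : Set (V n)} {L : Fin K → Submodule ℝ (V n)} {v : Fin K → V n}
    {β : Fin K → Fin K}
    (hcomp : ∀ x : Fin K → V n, (∀ a, x a ∈ L a) → ∑ a, x a ∈ closure C → ∀ a, x a ∈ closure C)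
    (hv : ∀ i, v i ∈ L (β i)) (a : Fin K) (z : V n) (hz : z ∈ L a) (c : Fin K → ℝ)
    (hc : z + ∑ l, c l • v l ∈ closure C) :
    z + ∑ l ∈ Finset.univ.filter (fun l => β l = a), c l • v l ∈ closure C := by
  classical
  let Y : Fin K → V n := fun d =>
    (if d = a then z else 0) + ∑ l ∈ Finset.univ.filter (fun l => β l = d), c l • v l
  have hYL : ∀ d, Y d ∈ L d := by
    intro d
    refine (L d).add_mem ?_ ((L d).sum_mem fun l hl => ?_)
    · split_ifs with h1
      · rw [h1]; exact hz
      · exact (L d).zero_mem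
    · have h1 : β l = d := (Finset.mem_filter.mp hl).2
      have h2 := hv l
      rw [h1] at h2
      exact (L d).smul_mem _ h2
  have hYs : ∑ d, Y d = z + ∑ l, c l • v l := by
    simp only [Y]
    rw [Finset.sum_add_distrib, Finset.sum_ite_eq' Finset.univ a fun _ => z,
      if_pos (Finset.mem_univ a), Finset.sum_fiberwise]
  have h1 := hcomp Y hYL (by rw [hYs]; exact hc) a
  simp only [Y, if_true] at h1
  exact h1

theorem sum_ite_erase {ι : Type} [DecidableEq ι] (s : Finset ι) (i : ι) (M : ℝ) (f : ι → V n) :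
    ∑ l ∈ s, (if l = i then (0 : ℝ) else M) • f l = M • ∑ l ∈ s.erase i, f l := by
  have h1 : ∑ l ∈ s.erase i, (if l = i then (0 : ℝ) else M) • f l
      = ∑ l ∈ s, (if l = i then (0 : ℝ) else M) • f l := by
    refine Finset.sum_subset (Finset.erase_subset i s) fun l hl hl' => ?_
    have h2 : l = i := by
      by_contra hne
      exact hl' (Finset.mem_erase.mpr ⟨hne, hl⟩)
    rw [if_pos h2, zero_smul]
  rw [← h1, Finset.smul_sum]
  refine Finset.sum_congr rfl fun l hl => ?_
  rw [if_neg (Finset.ne_of_mem_erase hl)]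

theorem chb (fcu : FcuStmt) : ChbStmt := by
  classical
  intro n C Γ h K hK L w β hB hF hS w' hw' hp
  have H := h.hul
  have hwcl : ∀ i, w i ∈ closure C := fun i => H.lamCl _ (hB.pes.2 i)
  have hwne : ∀ i, w i ≠ 0 := fun i => H.lamNe _ (hB.pes.2 i)
  let U : Fin K → V n := fun a => ∑ i ∈ Finset.univ.filter (fun i => β i = a), w i
  let U' : Fin K → V n := fun a => ∑ i ∈ Finset.univ.filter (fun i => β i = a), w' i
  have hU : ∀ i0, U (β i0) ∉ C ∧ U (β i0) ≠ 0 ∧ Unt C (L (β i0)) (U (β i0)) := by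
    intro i0
    obtain ⟨h1, h2, h3, h4, -, -⟩ := fcu n C Γ h K hK L w β hB hF i0 (U (β i0)) rfl
    refine ⟨h2, h3, (h4 _).1 ⟨1, one_pos, ?_, ?_⟩⟩
    · rw [one_smul, sub_self]; exact h.zero_cl
    · rw [one_smul, sub_self]; exact h.zero_cl
  have hsingle : ∀ i, (∀ j, β j = β i → j = i) → ∃ c : ℝ, 0 < c ∧ w' i = c • w i := by
    intro i hi
    obtain ⟨c, hc⟩ := hB.one i hi (w' i) (hw' i).1
    refine ⟨c, ?_, hc⟩
    by_contra hcon
    have hc0 : c ≤ 0 := not_lt.mp hcon
    apply (hw' i).2.2
    apply h.salient _ (hw' i).2.1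
    rw [hc, ← neg_smul]
    exact h.cl_smul (hwcl i) (by linarith)
  have hpair : ∀ i j, i ≠ j → β i = β j →
      (Finset.univ.filter fun l => β l = β i) = {i, j} := by
    intro i j hij hb
    ext l
    simp only [Finset.mem_filter, Finset.mem_univ, true_and, Finset.mem_insert,
      Finset.mem_singleton]
    constructor
    · intro hl
      rcases hB.three l i j hl hb with h1 | h1 | h1
      · exact Or.inl h1
      · exact absurd h1 hij
      · exact Or.inr h1
    · rintro (rfl | rfl)
      · rfl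
      · exact hb.symm
  have hsing : ∀ i, (∀ j, β j = β i → j = i) →
      (Finset.univ.filter fun l => β l = β i) = {i} := by
    intro i hi
    ext l
    simp only [Finset.mem_filter, Finset.mem_univ, true_and, Finset.mem_singleton]
    exact ⟨fun hl => hi l hl, fun hl => by rw [hl]⟩
  have hM : ∀ a, ∃ M : ℝ, 0 < M ∧ M • U' a - U a ∈ closure C := by
    intro a
    by_cases ha : ∃ i, β i = a
    · obtain ⟨i, rfl⟩ := ha
      by_cases hs : ∃ j, β j = β i ∧ j ≠ i
      · obtain ⟨j, hj, hji⟩ := hs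
        have hunit : Unt C (L (β i)) (w' i + w' j) :=
          hS (β i) (w' i) (hw' i).1 (w' j) (hj ▸ (hw' j).1) (hw' i).2.1 (hw' j).2.1
            (hp i j hji.symm hj.symm).1
        obtain ⟨M, hM, hMc⟩ := hunit.2.2 (U (β i)) (hU i).2.2.1
        refine ⟨M, hM, ?_⟩
        have e1 : U' (β i) = w' i + w' j := by
          simp only [U']
          rw [hpair i j hji.symm hj.symm, Finset.sum_pair hji.symm]
        rw [e1]
        exact hMc
      · push Not at hs
        obtain ⟨c, hc, hcw⟩ := hsingle i hs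
        refine ⟨c⁻¹, inv_pos.mpr hc, ?_⟩
        have e1 : U (β i) = w i := by
          simp only [U]
          rw [hsing i hs, Finset.sum_singleton]
        have e2 : U' (β i) = w' i := by
          simp only [U']
          rw [hsing i hs, Finset.sum_singleton]
        rw [e1, e2, hcw, smul_smul, inv_mul_cancel₀ hc.ne', one_smul, sub_self]
        exact h.zero_cl
    · refine ⟨1, one_pos, ?_⟩
      have hemp : (Finset.univ.filter fun l => β l = a) = ∅ := by
        ext l
        simp only [Finset.mem_filter, Finset.mem_univ, true_and, Finset.notMem_empty, iff_false]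
        exact fun hl => ha ⟨l, hl⟩
      simp only [U, U']
      rw [hemp, Finset.sum_empty, Finset.sum_empty, smul_zero, sub_zero]
      exact h.zero_cl
  choose M hM0 hMc using hM
  have hsum' : ∑ i, w' i ∈ C := by
    have h1 : ∑ a, U' a = ∑ i, w' i := by
      simp only [U']
      rw [Finset.sum_fiberwise]
    have h2 : ∑ a, U a = ∑ i, w i := by
      simp only [U]
      rw [Finset.sum_fiberwise]
    have hTM : ∀ a, M a ≤ ∑ b, M b := fun a =>
      Finset.single_le_sum (fun b _ => (hM0 b).le) (Finset.mem_univ a)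
    have hU'cl : ∀ a, U' a ∈ closure C := fun a => h.cl_sum fun i _ => (hw' i).2.1
    have h3 : (∑ b, M b) • (∑ i, w' i) - ∑ i, w i ∈ closure C := by
      rw [← h1, ← h2, Finset.smul_sum (s := Finset.univ) (f := U'), ← Finset.sum_sub_distrib]
      refine h.cl_sum fun a _ => ?_
      have h4 : (∑ b, M b) • U' a - U a
          = (M a • U' a - U a) + ((∑ b, M b) - M a) • U' a := by module
      rw [h4]
      exact h.cl_add (hMc a) (h.cl_smul (hU'cl a) (sub_nonneg.mpr (hTM a)))
    have h5 : (∑ b, M b) • (∑ i, w' i) ∈ C := h.mem_of_le hB.pes.1.sum_mem h3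
    have hT : 0 < ∑ b, M b := lt_of_lt_of_le (hM0 ⟨0, by omega⟩) (hTM _)
    rwa [h.smul_iff hT] at h5
  have hPES : PES C w' := by
    apply H60.crt n C h.toPCone (Fin K) w' (fun i => (hw' i).2.1) hsum'
    intro i hmem
    have hcmp : ∀ z ∈ L (β i), ∃ M : ℝ, 0 < M ∧
        M • (∑ l ∈ (Finset.univ.filter fun l => β l = β i).erase i, w' l) - z ∈ closure C := by
      intro z hz
      obtain ⟨M, hM, hMc⟩ := h.absorb hmem z
      refine ⟨M, hM, ?_⟩
      have e1 : M • (∑ j ∈ Finset.univ.erase i, w' j) - z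
          = -z + ∑ l, (if l = i then (0 : ℝ) else M) • w' l := by
        rw [sum_ite_erase]
        abel
      rw [e1] at hMc
      have h2 := compv hB.comp (fun i => (hw' i).1) (β i) (-z) ((L _).neg_mem hz) _
        (subset_closure hMc)
      rw [sum_ite_erase, neg_add_eq_sub] at h2
      exact h2
    by_cases hs : ∃ j, β j = β i ∧ j ≠ i
    · obtain ⟨j, hj, hji⟩ := hs
      have e1 : ∑ l ∈ (Finset.univ.filter fun l => β l = β i).erase i, w' l = w' j := by
        rw [hpair i j hji.symm hj.symm, Finset.erase_insert (by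
          rw [Finset.mem_singleton]; exact hji.symm), Finset.sum_singleton]
      rw [e1] at hcmp
      refine (hp j i hji hj).2 ⟨(hw' j).1, (hw' j).2.1, ?_⟩
      rw [hj]
      exact hcmp
    · push Not at hs
      rw [hsing i hs, Finset.erase_singleton, Finset.sum_empty] at hcmp
      obtain ⟨M, hM, hMc⟩ := hcmp (w i) (hB.mem i)
      rw [smul_zero, zero_sub] at hMc
      exact hwne i (h.salient _ (hwcl i) hMc)
  have hLam : ∀ i, w' i ∈ LamC C Γ := by
    intro i
    obtain ⟨h2, h3, h4⟩ := hU i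
    have hne : (Finset.univ.filter fun l => β l = β i).Nonempty :=
      ⟨i, Finset.mem_filter.mpr ⟨Finset.mem_univ i, rfl⟩⟩
    have hUH : U (β i) ∈ Hull C Γ := H37.hull_sum H hne fun m _ => H.lamHull _ (hB.pes.2 m)
    have hUL : U (β i) ∈ LamC C Γ :=
      H37.cloF n C Γ h (fun _ => U (β i)) _ (fun _ => hUH) tendsto_const_nhds h2 h3
    obtain ⟨M, hM, hMc⟩ := h4.2.2 (w' i) (hw' i).1
    exact H37.flmF n C Γ h (M • U (β i)) (H.lamSmul _ hUL M hM) _ (hw' i).2.1 (hw' i).2.2 hMc
  refine ⟨⟨hPES, hLam⟩, fun i => (hw' i).1, hB.comp, hB.bot, ?_, hB.two, hB.three⟩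
  intro i hi x hx
  obtain ⟨c, hc, hcw⟩ := hsingle i hi
  obtain ⟨d, hd⟩ := hB.one i hi x hx
  refine ⟨d * c⁻¹, ?_⟩
  rw [hd, hcw, smul_smul, mul_assoc, inv_mul_cancel₀ hc.ne', mul_one]

end Pool.Agent.PFJ.H33
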