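import Pool.Agent.PFJ.Stmts

/-!
# PFJ squad, row FC2: two-dimensional faces of a box
-/

set_option autoImplicit false

open Matrix Filter Topology

namespace Pool.Agent.PFJ.H33

open Pool.Agent.PFS

theorem fc2 (bcp : BcpStmt) : Fc2Stmt := by
  classical
  intro n C Γ hC K L w β hB hF a b hab e he e' he' hec hec' hEx hEx' hne y hy
  obtain ⟨ε, hε, h1, h2⟩ := hy
  have hycl : y ∈ closure C := by
    have h3 := hC.cl_add h2 (hC.cl_smul (hC.cl_add hec hec') hε.le)
    rwa [sub_add_cancel] at h3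
  have hM : ε⁻¹ • (e + e') - y ∈ closure C := by
    have h3 := hC.cl_smul h1 (inv_pos.mpr hε).le
    rwa [smul_sub, smul_smul, inv_mul_cancel₀ hε.ne', one_smul] at h3
  let x : Fin K → V n := fun d => if d = a then e else if d = b then e' else 0
  have hxa : x a = e := by simp [x]
  have hxb : x b = e' := by simp [x, hab.symm]
  have hx0 : ∀ d, d ≠ a → d ≠ b → x d = 0 := fun d h3 h4 => by simp [x, h3, h4]
  have hxs : ∑ d, x d = e + e' := by
    rw [Finset.sum_eq_add a b hab (fun c _ hc => hx0 c hc.1 hc.2)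
      (fun h => absurd (Finset.mem_univ a) h) (fun h => absurd (Finset.mem_univ b) h), hxa, hxb]
  have hxL : ∀ d, x d ∈ L d := by
    intro d
    by_cases h3 : d = a
    · subst h3; rw [hxa]; exact he
    · by_cases h4 : d = b
      · subst h4; rw [hxb]; exact he'
      · rw [hx0 d h3 h4]; exact (L d).zero_mem
  have hxcl : ∀ d, x d ∈ closure C := by
    intro d
    by_cases h3 : d = a
    · subst h3; rw [hxa]; exact hec
    · by_cases h4 : d = b
      · subst h4; rw [hxb]; exact hec'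
      · rw [hx0 d h3 h4]; exact hC.zero_cl
  obtain ⟨M', y', hM', hys, hy'⟩ := bcp n C Γ hC K L w β hB hF x hxL hxcl
    (by rw [hxs]; exact hne) y hycl ε⁻¹ (by rw [hxs]; exact hM)
  have hz : ∀ d, d ≠ a → d ≠ b → y' d = 0 := by
    intro d h3 h4
    obtain ⟨_, h5, h6⟩ := hy' d
    rw [hx0 d h3 h4, smul_zero, zero_sub] at h6
    exact hC.salient _ h5 h6
  obtain ⟨c, hc⟩ := hEx (y' a) (hy' a).2.1 M' (by have := (hy' a).2.2; rwa [hxa] at this)
  obtain ⟨c', hc'⟩ := hEx' (y' b) (hy' b).2.1 M' (by have := (hy' b).2.2; rwa [hxb] at this)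
  refine ⟨c, c', ?_⟩
  rw [← hys, Finset.sum_eq_add a b hab (fun d _ hd => hz d hd.1 hd.2)
      (fun h => absurd (Finset.mem_univ a) h) (fun h => absurd (Finset.mem_univ b) h), hc, hc']

end Pool.Agent.PFJ.H33
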