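import Pool.Agent.PFJ.StmtsG

/-!
# PFJ squad, row PZK: assembly of section G
-/

set_option autoImplicit false

open Matrix Filter Topology

namespace Pool.Agent.PFJ.H33

open Pool.Agent.PFS

theorem pzk (bp2 : Bp2Stmt) (se2 : Se2Stmt) : PzkStmt := by
  intro n C Γ k P hD L w β hB hP
  obtain ⟨w', σ, nu, hB', hσ, hnu, hne⟩ := bp2 n C Γ (k + 1) P hD L w β hB hP
  refine ⟨w', hB', ?_⟩
  obtain ⟨χ, hχ, hχl⟩ := H81.chi k
    {χ : Fin (k + 1) → ℝ | ∃ γ ∈ Γ, ∀ i, act γ (w' i) = Real.exp (χ i) • w' i} (by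
      intro ℓ hℓ hs
      obtain ⟨γ, hγ, χ, h4, h5⟩ := se2 n C Γ (k + 1) P hD L w' β hB' hP σ nu hσ hnu hne ℓ hℓ hs
      exact ⟨χ, ⟨γ, hγ, h4⟩, h5⟩)
  choose γ hγ hγχ using hχ
  exact H37.abeF n C Γ hD.toCC k w' hB'.pes γ χ hγ hγχ hχl

end Pool.Agent.PFJ.H33
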