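import Pool.Agent.PFJ.Stmts

/-!
# PFJ squad, row STC: strictness of the factors from maximality
-/

set_option autoImplicit false

open Matrix Filter Topology

namespace Pool.Agent.PFJ.H33

open Pool.Agent.PFS

variable {n : ℕ}

/-- the largest multiple of `y` below `x` -/
theorem maxmul {C : Set (V n)} (h : PCone C) {x y : V n} (hx : x ∈ closure C)
    (hy : y ∈ closure C) (hy0 : y ≠ 0) :
    ∃ e : ℝ, 0 ≤ e ∧ x - e • y ∈ closure C ∧ ∀ t : ℝ, x - t • y ∈ closure C → t ≤ e := by
  obtain ⟨B, hB, hn⟩ := h.normal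
  have hyp : 0 < ‖y‖ := norm_pos_iff.mpr hy0
  let S : Set ℝ := {t : ℝ | 0 ≤ t ∧ x - t • y ∈ closure C}
  have hScl : IsClosed S := by
    have h1 : IsClosed {t : ℝ | 0 ≤ t} := isClosed_le continuous_const continuous_id
    have h2 : IsClosed {t : ℝ | x - t • y ∈ closure C} :=
      isClosed_closure.preimage (by fun_prop)
    exact h1.inter h2
  have hSn : S.Nonempty := ⟨0, le_refl _, by rw [zero_smul, sub_zero]; exact hx⟩
  have hSb : BddAbove S := by
    refine ⟨B * ‖x‖ / ‖y‖, ?_⟩
    rintro t ⟨ht, htc⟩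
    have h1 := hn (t • y) x (h.cl_smul hy ht) htc
    rw [norm_smul, Real.norm_of_nonneg ht] at h1
    rwa [le_div_iff₀ hyp]
  have hmem := hScl.csSup_mem hSn hSb
  refine ⟨sSup S, hmem.1, hmem.2, fun t ht => ?_⟩
  by_cases h0 : 0 ≤ t
  · exact le_csSup hSb ⟨h0, ht⟩
  · exact le_trans (not_le.mp h0).le hmem.1

/-- two independent extreme differences below independent vectors -/
theorem plane {C : Set (V n)} (h : PCone C) {x y : V n} (hx : x ∈ closure C)
    (hy : y ∈ closure C) (hxy : Ind2 x y) :
    ∃ e0 e1 : ℝ, 0 ≤ e0 ∧ 0 ≤ e1 ∧ x - e0 • y ∈ closure C ∧ y - e1 • x ∈ closure C ∧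
      (∀ M : ℝ, 0 < M → M • (y - e1 • x) - (x - e0 • y) ∉ closure C) ∧
      (∀ M : ℝ, 0 < M → M • (x - e0 • y) - (y - e1 • x) ∉ closure C) := by
  have hx0 : x ≠ 0 := by
    rintro rfl
    have := (hxy 1 0 (by simp)).1
    exact one_ne_zero this
  have hy0 : y ≠ 0 := by
    rintro rfl
    have := (hxy 0 1 (by simp)).2
    exact one_ne_zero this
  obtain ⟨e0, he0, hc0, hm0⟩ := maxmul h hx hy hy0
  obtain ⟨e1, he1, hc1, hm1⟩ := maxmul h hy hx hx0
  have hlt : e0 * e1 < 1 := by
    by_contra hcon
    have hge : 1 ≤ e0 * e1 := not_lt.mp hcon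
    -- x - e0 y and its negative are in the closure
    have h1 : -(x - e0 • y) ∈ closure C := by
      have h2 := h.cl_add (h.cl_smul hc1 he0) (h.cl_smul hx (sub_nonneg.mpr hge))
      have h3 : e0 • (y - e1 • x) + (e0 * e1 - 1) • x = -(x - e0 • y) := by module
      rwa [h3] at h2
    have h4 : x - e0 • y = 0 := h.salient _ hc0 h1
    have h5 := (hxy 1 (-e0) (by rw [← h4]; module)).1
    exact one_ne_zero h5
  refine ⟨e0, e1, he0, he1, hc0, hc1, ?_, ?_⟩
  · intro M hM hcon
    have hp : 0 < M + e0 := by linarith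
    have h1 := h.cl_smul hcon (inv_pos.mpr hp).le
    have h2 : (M + e0)⁻¹ • (M • (y - e1 • x) - (x - e0 • y))
        = y - ((M + e0)⁻¹ * (M * e1 + 1)) • x := by
      have h3 : M • (y - e1 • x) - (x - e0 • y) = (M + e0) • y - (M * e1 + 1) • x := by module
      rw [h3, smul_sub, smul_smul, smul_smul, inv_mul_cancel₀ hp.ne', one_smul]
    rw [h2] at h1
    have h4 := hm1 _ h1
    rw [inv_mul_le_iff₀ hp] at h4
    nlinarith
  · intro M hM hcon
    have hp : 0 < M + e1 := by linarith
    have h1 := h.cl_smul hcon (inv_pos.mpr hp).le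
    have h2 : (M + e1)⁻¹ • (M • (x - e0 • y) - (y - e1 • x))
        = x - ((M + e1)⁻¹ * (M * e0 + 1)) • y := by
      have h3 : M • (x - e0 • y) - (y - e1 • x) = (M + e1) • x - (M * e0 + 1) • y := by module
      rw [h3, smul_sub, smul_smul, smul_smul, inv_mul_cancel₀ hp.ne', one_smul]
    rw [h2] at h1
    have h4 := hm0 _ h1
    rw [inv_mul_le_iff₀ hp] at h4
    nlinarith

/-- components of `z + ∑ c l • w l`, `z` in the factor `a` -/
theorem comps {K : ℕ} {C : Set (V n)} {Γ : Subgroup (GL (Fin n) ℝ)}
    {L : Fin K → Submodule ℝ (V n)} {w : Fin K → V n} {β : Fin K → Fin K}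
    (hB : Box C Γ L w β) (a : Fin K) (z : V n) (hz : z ∈ L a) (c : Fin K → ℝ)
    (hc : z + ∑ l, c l • w l ∈ closure C) :
    (z + ∑ l ∈ Finset.univ.filter (fun l => β l = a), c l • w l ∈ closure C) ∧
    ∀ d, d ≠ a → ∑ l ∈ Finset.univ.filter (fun l => β l = d), c l • w l ∈ closure C := by
  classical
  let Y : Fin K → V n := fun d =>
    (if d = a then z else 0) + ∑ l ∈ Finset.univ.filter (fun l => β l = d), c l • w l
  have hYL : ∀ d, Y d ∈ L d := by
    intro d
    refine (L d).add_mem ?_ ((L d).sum_mem fun l hl => ?_)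
    · split_ifs with h1
      · rw [h1]; exact hz
      · exact (L d).zero_mem
    · have h1 : β l = d := (Finset.mem_filter.mp hl).2
      have h2 := hB.mem l
      rw [h1] at h2
      exact (L d).smul_mem _ h2
  have hYs : ∑ d, Y d = z + ∑ l, c l • w l := by
    simp only [Y]
    rw [Finset.sum_add_distrib, Finset.sum_ite_eq' Finset.univ a fun _ => z,
      if_pos (Finset.mem_univ a), Finset.sum_fiberwise]
  have hYc := hB.comp Y hYL (by rw [hYs]; exact hc)
  constructor
  · have h1 := hYc a
    simp only [Y, if_true] at h1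
    exact h1
  · intro d hd
    have h1 := hYc d
    simp only [Y, if_neg hd, zero_add] at h1
    exact h1

theorem stc (bfa : BfaStmt) (unf : UnfStmt) : StcStmt := by
  classical
  intro n C Γ h K hK hmax L w β hB a x hxL y hyL hx hy hxy
  by_contra hU
  have H := h.hul
  obtain ⟨-, -, hunit, -, -, hb6⟩ := bfa n C Γ h.toPCone K L w β hB
  have hwcl : ∀ i, w i ∈ closure C := fun i => H.lamCl _ (hB.pes.2 i)
  have hx0 : x ≠ 0 := by
    rintro rfl
    exact one_ne_zero (hxy 1 0 (by simp)).1
  have hy0 : y ≠ 0 := by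
    rintro rfl
    exact one_ne_zero (hxy 0 1 (by simp)).2
  obtain ⟨e0, e1, he0, he1, hc0, hc1, hn1, hn2⟩ := plane h.toPCone hx hy hxy
  -- the fibre of a
  obtain ⟨j, hj⟩ := hb6 a x hxL hx0
  obtain ⟨j', hj', hjj⟩ : ∃ j', β j' = a ∧ j' ≠ j := by
    by_contra hcon
    push Not at hcon
    have h1 := hB.one j fun i hi => hcon i (by rw [hi, hj])
    rw [hj] at h1
    obtain ⟨c, hc⟩ := h1 x hxL
    obtain ⟨c', hc'⟩ := h1 y hyL
    have h2 := hxy c' (-c) (by rw [hc, hc', smul_smul, smul_smul, mul_comm c' c, neg_mul,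
      neg_smul, add_neg_cancel])
    have h3 : c = 0 := by have := h2.2; linarith
    exact hx0 (by rw [hc, h3, zero_smul])
  have hthree : ∀ i, i ≠ j → i ≠ j' → β i ≠ a := by
    intro i h1 h2 h3
    rcases hB.three i j j' (by rw [h3, hj]) (by rw [hj, hj']) with h4 | h4 | h4
    · exact h1 h4
    · exact hjj h4.symm
    · exact h2 h4
  obtain ⟨i0, hi0j, hi0j'⟩ : ∃ i0 : Fin K, i0 ≠ j ∧ i0 ≠ j' := by
    have h1 : ({j, j'} : Finset (Fin K)).card < (Finset.univ : Finset (Fin K)).card := by
      rw [Finset.card_univ, Fintype.card_fin]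
      exact lt_of_le_of_lt Finset.card_le_two (by omega)
    obtain ⟨i0, _, hi0⟩ := Finset.exists_mem_notMem_of_card_lt_card h1
    rw [Finset.mem_insert, Finset.mem_singleton] at hi0
    push Not at hi0
    exact ⟨i0, hi0.1, hi0.2⟩
  have hfib : (Finset.univ.filter fun i => β i = a) = {j, j'} := by
    ext i
    simp only [Finset.mem_filter, Finset.mem_univ, true_and, Finset.mem_insert,
      Finset.mem_singleton]
    constructor
    · intro h1
      by_contra h2
      push Not at h2
      exact hthree i h2.1 h2.2 h1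
    · rintro (rfl | rfl)
      · exact hj
      · exact hj'
  let u : V n := ∑ i ∈ Finset.univ.filter (fun i => β i = a), w i
  have huU : Unt C (L a) u := hunit a
  have hu2 : u = w j + w j' := by
    simp only [u]
    rw [hfib, Finset.sum_pair hjj.symm]
  obtain ⟨hunf1, hunf2, -, -, -, -⟩ := unf n C h.toPCone (L a) u huU
  let S : V n := ∑ i, w i
  have hSC : S ∈ C := hB.pes.1.sum_mem
  have hSH : S ∈ Hull C Γ := H37.hull_sum H ⟨j, Finset.mem_univ j⟩
    fun m _ => H.lamHull _ (hB.pes.2 m)
  have huH : u ∈ Hull C Γ := by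
    rw [hu2]
    exact H.add _ (H.lamHull _ (hB.pes.2 j)) _ (H.lamHull _ (hB.pes.2 j'))
  have hucl : u ∈ closure C := H.hullCl _ huH
  have hune : u ≠ 0 := by
    intro h0
    have h1 : w j' = - w j := by
      rw [hu2] at h0
      exact eq_neg_of_add_eq_zero_right h0
    exact H.lamNe _ (hB.pes.2 j) (h.salient _ (hwcl j) (by rw [← h1]; exact hwcl j'))
  have huC : u ∉ C := by
    have h1 := hB.pes.1.bd (fun i => if β i = a then 1 else 0)
      (fun i => by split_ifs <;> norm_num)
      ⟨i0, if_neg (hthree i0 hi0j hi0j')⟩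
    intro h2
    apply h1
    simp only [ite_smul, one_smul, zero_smul]
    rw [← Finset.sum_filter]
    exact h2
  have huL : u ∈ LamC C Γ :=
    H37.cloF n C Γ h (fun _ => u) u (fun _ => huH) tendsto_const_nhds huC hune
  -- the two vectors e1, e2
  let v1 : V n := x - e0 • y
  let v2 : V n := y - e1 • x
  have hv1ne : v1 ≠ 0 := by
    intro h0
    have h1 := (hxy 1 (-e0) (by
      have h2 : (1 : ℝ) • x + (-e0) • y = v1 := by simp only [v1]; module
      rw [h2, h0])).1
    exact one_ne_zero h1
  have hv2ne : v2 ≠ 0 := by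
    intro h0
    have h1 := (hxy (-e1) 1 (by
      have h2 : (-e1) • x + (1 : ℝ) • y = v2 := by simp only [v2]; module
      rw [h2, h0])).2
    exact one_ne_zero h1
  have hlam : ∀ z v : V n, z ∈ L a → v ∈ closure C → v ≠ 0 → z - v ∈ closure C →
      v ∈ LamC C Γ := by
    intro z v hz hv hv0 hzv
    obtain ⟨M, hM, hMz⟩ := huU.2.2 z hz
    exact H37.flmF n C Γ h (M • u) (H.lamSmul _ huL M hM) v hv hv0
      (h.le_trans hzv hMz)
  have hv1L : v1 ∈ LamC C Γ := hlam x v1 hxL hc0 hv1ne (by
    have h1 : x - v1 = e0 • y := by simp only [v1]; abel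
    rw [h1]; exact h.cl_smul hy he0)
  have hv2L : v2 ∈ LamC C Γ := hlam y v2 hyL hc1 hv2ne (by
    have h1 : y - v2 = e1 • x := by simp only [v2]; abel
    rw [h1]; exact h.cl_smul hx he1)
  have hv1La : v1 ∈ L a := (L a).sub_mem hxL ((L a).smul_mem _ hyL)
  have hv2La : v2 ∈ L a := (L a).sub_mem hyL ((L a).smul_mem _ hxL)
  have hv12H : v1 + v2 ∈ Hull C Γ := H.add _ (H.lamHull _ hv1L) _ (H.lamHull _ hv2L)
  have hv12c : v1 + v2 ∈ closure C := H.hullCl _ hv12H
  -- zoom
  let t : ℕ → ℝ := fun m => 1 / ((m : ℝ) + 1)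
  have ht0 : ∀ m, 0 < t m := fun m => by simp only [t]; positivity
  have htlim : Tendsto t atTop (𝓝 0) := tendsto_one_div_add_atTop_nhds_zero_nat
  let p : ℕ → V n := fun m => (v1 + v2) + t m • S
  have hpC : ∀ m, p m ∈ C := fun m => h.cl_add' hv12c (h.smul S hSC _ (ht0 m))
  have hpH : ∀ m, p m ∈ Hull C Γ := fun m => H.add _ hv12H _ (H.smul _ hSH _ (ht0 m))
  obtain ⟨φ, g, s, p0, hφm, hg, hs, hp0, hlimp⟩ := H60.zom n C Γ h p hpC hpH
  -- the family, indexed by Option (Fin K)
  let f : ℕ → Option (Fin K) → V n := fun m o =>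
    match o with
    | none => t m • u
    | some i => if i = j then v1 else if i = j' then v2 else t m • w i
  have hfH : ∀ m o, f m o ∈ Hull C Γ := by
    rintro m (_ | i)
    · exact H.smul _ huH _ (ht0 m)
    · simp only [f]
      split_ifs
      · exact H.lamHull _ hv1L
      · exact H.lamHull _ hv2L
      · exact H.smul _ (H.lamHull _ (hB.pes.2 i)) _ (ht0 m)
  have hfj : ∀ m, f m (some j) = v1 := fun m => by simp [f]
  have hfj' : ∀ m, f m (some j') = v2 := fun m => by simp [f, hjj]
  have hfi : ∀ m i, i ≠ j → i ≠ j' → f m (some i) = t m • w i := fun m i h1 h2 => by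
    simp [f, h1, h2]
  have hj'mem : j' ∈ (Finset.univ.erase j : Finset (Fin K)) :=
    Finset.mem_erase.mpr ⟨hjj, Finset.mem_univ _⟩
  have hSsplit : S = w j + (w j' + ∑ i ∈ (Finset.univ.erase j).erase j', w i) := by
    simp only [S]
    rw [Finset.add_sum_erase _ _ hj'mem, Finset.add_sum_erase _ _ (Finset.mem_univ j)]
  have hfsum : ∀ m, ∑ o, f m o = p m := by
    intro m
    rw [Fintype.sum_option]
    have h1 : ∑ i, f m (some i) = v1 + (v2 + t m • ∑ i ∈ (Finset.univ.erase j).erase j', w i) := by
      rw [← Finset.add_sum_erase _ _ (Finset.mem_univ j), hfj,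
        ← Finset.add_sum_erase _ _ hj'mem, hfj', Finset.smul_sum]
      congr 2
      refine Finset.sum_congr rfl fun i hi => ?_
      have h2 := Finset.mem_erase.mp hi
      exact hfi m i (Finset.ne_of_mem_erase h2.2) h2.1
    rw [h1]
    simp only [p]
    rw [hSsplit]
    simp only [f]
    rw [hu2]
    module
  let X : ℕ → Option (Fin K) → V n := fun m o => s m • act (g m) (f (φ m) o)
  have hsumX : ∀ m, ∑ o, X m o = s m • act (g m) (p (φ m)) := by
    intro m
    simp only [X]
    rw [← Finset.smul_sum, ← CC.act_sum, hfsum]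
  have hXH : ∀ m o, X m o ∈ Hull C Γ := fun m o =>
    H.smul _ (H.act _ (hfH _ o) _ (hg m)) _ (hs m)
  have hcard : 2 ≤ Fintype.card (Option (Fin K)) := by
    rw [Fintype.card_option, Fintype.card_fin]; omega
  have hlimX : Tendsto (fun m => ∑ o, X m o) atTop (𝓝 p0) := by
    simp only [hsumX]; exact hlimp
  obtain ⟨ψ, W, hψ, hWlim, hWsum, hW⟩ :=
    H37.limF n C Γ h (Option (Fin K)) hcard X p0 hXH hp0 hlimX
  have hcomp : Tendsto (fun m => φ (ψ m)) atTop atTop :=
    hφm.tendsto_atTop.comp hψ.tendsto_atTop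
  have hgen : ∀ o : Option (Fin K), ∑ j ∈ Finset.univ.erase o, W j ∈ C →
      ∃ M : ℝ, 0 < M ∧ ∀ᶠ m in atTop,
        M • (p (φ (ψ m)) - f (φ (ψ m)) o) - f (φ (ψ m)) o ∈ C := by
    intro o hmem
    obtain ⟨M, hM, hMC⟩ := h.absorb hmem (W o)
    refine ⟨M, hM, ?_⟩
    have hl2 : Tendsto (fun m => M • (∑ j ∈ Finset.univ.erase o, X (ψ m) j) - X (ψ m) o) atTop
        (𝓝 (M • (∑ j ∈ Finset.univ.erase o, W j) - W o)) :=
      ((tendsto_finsetSum _ fun j _ => hWlim j).const_smul M).sub (hWlim o)
    filter_upwards [hl2.eventually (h.isOpen.mem_nhds hMC)] with m hm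
    have hm' : M • (∑ j ∈ Finset.univ.erase o, X (ψ m) j) - X (ψ m) o ∈ C := hm
    have e : M • (∑ j ∈ Finset.univ.erase o, X (ψ m) j) - X (ψ m) o
        = s (ψ m) • act (g (ψ m)) (M • (p (φ (ψ m)) - f (φ (ψ m)) o) - f (φ (ψ m)) o) := by
      rw [Finset.sum_erase_eq_sub (Finset.mem_univ _), hsumX]
      simp only [X]
      rw [CC.act_sub, CC.act_smul, CC.act_sub]
      module
    rw [e, h.sact_mem_iff (hg _) (hs _)] at hm'
    exact hm'
  -- limits of the omitted sums for the two constant members
  have hlim0 : ∀ (M : ℝ) (v : V n),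
      Tendsto (fun m => M • (p (φ (ψ m)) - v) - v) atTop (𝓝 (M • (v1 + v2 - v) - v)) := by
    intro M v
    have h1 : Tendsto (fun m => p (φ (ψ m))) atTop (𝓝 ((v1 + v2) + (0 : ℝ) • S)) :=
      tendsto_const_nhds.add ((htlim.comp hcomp).smul_const S)
    rw [zero_smul, add_zero] at h1
    exact ((h1.sub tendsto_const_nhds).const_smul M).sub tendsto_const_nhds
  have hPES : IsPES C Γ W := by
    apply hW
    rintro (_ | i) hmem
    · -- omit t u
      obtain ⟨M, hM, hev⟩ := hgen none hmem
      obtain ⟨m, hm⟩ := hev.exists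
      set τ := t (φ (ψ m)) with hτ
      have hτ0 : 0 < τ := ht0 _
      have e1' : M • (p (φ (ψ m)) - f (φ (ψ m)) none) - f (φ (ψ m)) none
          = M • (v1 + v2) + ∑ l, (M * τ - if β l = a then M * τ + τ else 0) • w l := by
        have h1 : ∑ l, (M * τ - if β l = a then M * τ + τ else 0) • w l
            = (M * τ) • S - (M * τ + τ) • u := by
          simp only [sub_smul, Finset.sum_sub_distrib, S, u, Finset.smul_sum, ite_smul, zero_smul]
          rw [Finset.sum_filter]
        rw [h1]
        simp only [p, f]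
        rw [← hτ]
        module
      rw [e1'] at hm
      have h2 := (comps hB a (M • (v1 + v2))
        ((L a).smul_mem _ ((L a).add_mem hv1La hv2La)) _ (subset_closure hm)).1
      have h3 : ∑ l ∈ Finset.univ.filter (fun l => β l = a),
          (M * τ - if β l = a then M * τ + τ else 0) • w l = -(τ • u) := by
        have h4 : ∀ l ∈ Finset.univ.filter (fun l => β l = a),
            (M * τ - if β l = a then M * τ + τ else 0) • w l = (-τ) • w l := by
          intro l hl
          rw [if_pos (Finset.mem_filter.mp hl).2]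
          congr 1
          ring
        rw [Finset.sum_congr rfl h4, ← Finset.smul_sum, neg_smul]
      rw [h3] at h2
      -- x + y is a unit
      apply hU
      have h5 : Unt C (L a) ((τ / M) • u) := hunf1 _ (by positivity)
      obtain ⟨-, h6, -⟩ := unf n C h.toPCone (L a) _ h5
      apply h6 _ ((L a).add_mem hxL hyL)
      have h7 : x + y - (τ / M) • u
          = (e0 • y + e1 • x) + M⁻¹ • (M • (v1 + v2) + -(τ • u)) := by
        have h8 : M⁻¹ • (M • (v1 + v2) + -(τ • u)) = (v1 + v2) - (τ / M) • u := by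
          rw [smul_add, smul_smul, inv_mul_cancel₀ hM.ne', one_smul, smul_neg, smul_smul,
            div_eq_inv_mul, sub_eq_add_neg]
        rw [h8]
        simp only [v1, v2]
        module
      rw [h7]
      exact h.cl_add (h.cl_add (h.cl_smul hy he0) (h.cl_smul hx he1))
        (h.cl_smul h2 (inv_pos.mpr hM).le)
    · by_cases hij : i = j
      · -- omit v1
        subst hij
        obtain ⟨M, hM, hev⟩ := hgen (some i) hmem
        simp only [hfj] at hev
        have h1 : M • (v1 + v2 - v1) - v1 ∈ closure C :=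
          isClosed_closure.mem_of_tendsto (hlim0 M v1)
            (hev.mono fun m hm => subset_closure hm)
        rw [add_sub_cancel_left] at h1
        exact hn1 M hM h1
      · by_cases hij' : i = j'
        · subst hij'
          obtain ⟨M, hM, hev⟩ := hgen (some i) hmem
          simp only [hfj'] at hev
          have h1 : M • (v1 + v2 - v2) - v2 ∈ closure C :=
            isClosed_closure.mem_of_tendsto (hlim0 M v2)
              (hev.mono fun m hm => subset_closure hm)
          rw [add_sub_cancel_right] at h1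
          exact hn2 M hM h1
        · -- omit t w_i
          obtain ⟨M, hM, hev⟩ := hgen (some i) hmem
          obtain ⟨m, hm⟩ := hev.exists
          set τ := t (φ (ψ m)) with hτ
          have hτ0 : 0 < τ := ht0 _
          have hia : β i ≠ a := hthree i hij hij'
          let c : Fin K → ℝ := fun l => M * τ - if l = i then M * τ + τ else 0
          have hcs : ∑ l, c l • w l = (M * τ) • S - (M * τ + τ) • w i := by
            simp only [c, sub_smul, Finset.sum_sub_distrib, S, Finset.smul_sum, ite_smul,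
              zero_smul]
            rw [Finset.sum_ite_eq' Finset.univ i, if_pos (Finset.mem_univ i)]
          have e1' : M • (p (φ (ψ m)) - f (φ (ψ m)) (some i)) - f (φ (ψ m)) (some i)
              = M • (v1 + v2) + ∑ l, c l • w l := by
            rw [hcs, hfi _ i hij hij']
            simp only [p]
            rw [← hτ]
            module
          rw [e1'] at hm
          have h2 := (comps hB a (M • (v1 + v2))
            ((L a).smul_mem _ ((L a).add_mem hv1La hv2La)) c (subset_closure hm)).2 (β i) hia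
          have h3 : ∑ l, c l • w l ∈ closure C := by
            rw [← Finset.sum_filter_add_sum_filter_not Finset.univ (fun l => β l = β i)]
            refine h.cl_add h2 (h.cl_sum fun l hl => h.cl_smul (hwcl l) ?_)
            have h4 : β l ≠ β i := (Finset.mem_filter.mp hl).2
            have h5 : l ≠ i := fun h6 => h4 (by rw [h6])
            simp only [c, if_neg h5, sub_zero]
            positivity
          rw [hcs] at h3
          -- contradiction with bd
          have h4 : (M * τ + τ) • (S - w i) ∈ C := by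
            have h5 := h.cl_add' h3 (h.smul S hSC τ hτ0)
            have h6 : (M * τ) • S - (M * τ + τ) • w i + τ • S = (M * τ + τ) • (S - w i) := by
              module
            rwa [h6] at h5
          rw [h.smul_iff (by positivity)] at h4
          have h5 := hB.pes.1.bd (fun l => if l = i then 0 else 1)
            (fun l => by split_ifs <;> norm_num) ⟨i, if_pos rfl⟩
          apply h5
          have h6 : ∑ l, (if l = i then (0 : ℝ) else 1) • w l = S - w i := by
            have h7 : ∀ l, (if l = i then (0 : ℝ) else 1) • w l = w l - if l = i then w l else 0 := by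
              intro l
              split_ifs <;> simp
            rw [Finset.sum_congr rfl fun l _ => h7 l, Finset.sum_sub_distrib,
              Finset.sum_ite_eq' Finset.univ i, if_pos (Finset.mem_univ i)]
          rw [h6]
          exact h4
  have hcardK : Fintype.card (Option (Fin K)) = K + 1 := by
    rw [Fintype.card_option, Fintype.card_fin]
  have e := Fintype.equivFinOfCardEq hcardK
  have hfin := (H60.elm n C Γ h (Option (Fin K)) W hPES).2.2.1 (Fin (K + 1)) e.symm
  have := hmax (K + 1) _ hfin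
  omega

end Pool.Agent.PFJ.H33
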